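import Mathlib

set_option autoImplicit false

/-!
# The asymptotic formula with `k + [log_2 k] + 2` shifted `k`-th powers: definitions and statements of the jobs
-/

open MeasureTheory Finset

namespace Pool.Agent.K7.H74.AF

/-- the uniform measure on the unit cube -/
noncomputable def cube (s : ℕ) : Measure (Fin s → ℝ) := Measure.pi fun _ => volume.restrict (Set.Ioc (0 : ℝ) 1)

/-- the left end of block number `a` -/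
def lo (a : ℕ) : ℕ := if a = 0 then 0 else 3 ^ (a - 1)

/-- block number `a`: `{0}`, `[1, 3)`, `[3, 9)`, `[9, 27)`, … -/
def blk (a : ℕ) : Finset ℕ := Finset.Ico (lo a) (3 ^ a)

/-- a box -/
def Box {t : ℕ} (b : Fin t → ℕ) : Finset (Fin t → ℕ) := Fintype.piFinset fun i => blk (b i)

open Classical in
/-- the number of solutions in a box -/
noncomputable def cn (k : ℕ) {t : ℕ} (ξ : Fin t → ℝ) (b : Fin t → ℕ) (η τ : ℝ) : ℕ :=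
  ((Box b).filter fun x => |∑ i, ((x i : ℝ) + ξ i) ^ k - τ| ≤ η).card

/-- the expected number of solutions in a box -/
noncomputable def vl (k : ℕ) {t : ℕ} (b : Fin t → ℕ) (η τ : ℝ) : ℝ :=
  (volume {u : Fin t → ℝ | (∀ i, (lo (b i) : ℝ) ≤ u i ∧ u i < 3 ^ b i) ∧ |∑ i, u i ^ k - τ| ≤ η}).toReal

/-- the scale of a box is `3 ^ mx b` -/
def mx {t : ℕ} (b : Fin t → ℕ) : ℕ := Finset.univ.sup b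

/-- level sets (window `1`) -/
def Lv (k : ℕ) {t : ℕ} (ξ : Fin t → ℝ) (b : Fin t → ℕ) (l : ℕ) : Set ℝ := {τ | (2 : ℝ) ^ l ≤ cn k ξ b 1 τ}

/-- excess sets (window `η`) -/
def Ex (k : ℕ) {t : ℕ} (ξ : Fin t → ℝ) (b : Fin t → ℕ) (η : ℝ) (l : ℕ) : Set ℝ :=
  {τ | vl k b η τ + (2 : ℝ) ^ l ≤ cn k ξ b η τ}

/-- the pairs `x ≠ y` of the block `J` with `τ - (x + β) ^ k ∈ B` and `τ - (y + β) ^ k ∈ B`, integrated over `τ` -/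
noncomputable def pairs (k J : ℕ) (B : Set ℝ) (β : ℝ) : ENNReal :=
  ∑ x ∈ blk J, ∑ y ∈ (blk J).erase x,
    volume {τ : ℝ | τ - ((x : ℝ) + β) ^ k ∈ B ∧ τ - ((y : ℝ) + β) ^ k ∈ B}

/-- JOB PAIR: the mean number of pairs -/
def StPair : Prop := ∀ k : ℕ, 2 ≤ k → ∃ C : ℝ, 0 < C ∧ ∀ (J : ℕ) (B : Set ℝ), MeasurableSet B →
  ∫⁻ β in Set.Ioc (0 : ℝ) 1, pairs k J B β ≤
    ENNReal.ofReal (C * (1 + J) * ((3 : ℝ) ^ J) ^ 2 / ((3 : ℝ) ^ J) ^ k) * (volume B) ^ 2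

/-- JOB PAE (assume `StPair`): the number of pairs for almost all `β`, for countably many sets -/
def StPae : Prop := ∀ k : ℕ, 2 ≤ k → ∀ (ι : Type) [Countable ι] (J : ι → ℕ) (B : ι → Set ℝ) (ω : ι → ℝ),
  (∀ n, MeasurableSet (B n)) → (∀ n, volume (B n) ≠ ⊤) → (∀ n, 0 < ω n) →
  Summable (fun n => (1 + (J n : ℝ)) / ω n) →
  ∀ᵐ β ∂(volume.restrict (Set.Ioc (0 : ℝ) 1)), ∃ C : ℝ, 0 ≤ C ∧ ∀ n, pairs k (J n) (B n) β ≤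
    ENNReal.ofReal (C * ω n * ((3 : ℝ) ^ J n) ^ 2 / ((3 : ℝ) ^ J n) ^ k) * (volume (B n)) ^ 2

/-- JOB AE: almost all points of the cube -/
def StAe : Prop :=
  (∀ (t : ℕ) (P : (Fin (t + 1) → ℝ) → Prop), MeasurableSet {ξ | P ξ} →
    (∀ᵐ ξ ∂(cube t), ∀ᵐ β ∂(volume.restrict (Set.Ioc (0 : ℝ) 1)), P (Fin.snoc ξ β)) → ∀ᵐ ξ ∂(cube (t + 1)), P ξ) ∧
  (∀ (t : ℕ) (P : (Fin t → ℝ) → Prop), (∀ᵐ ξ ∂(cube t), P ξ) →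
    ∀ᵐ ξ ∂(cube t), ∀ σ : Equiv.Perm (Fin t), P (ξ ∘ σ)) ∧
  (∀ t : ℕ, ∀ᵐ ξ ∂(cube t), ∀ i, 0 < ξ i ∧ ξ i ≤ 1)

/-- JOB MEAS: measurability -/
def StMeas : Prop :=
  (∀ (k t : ℕ) (b : Fin t → ℕ) (η : ℝ), Measurable fun p : (Fin t → ℝ) × ℝ => (cn k p.1 b η p.2 : ℝ)) ∧
  (∀ (k t : ℕ) (b : Fin t → ℕ) (η : ℝ), Measurable fun τ : ℝ => vl k b η τ) ∧
  (∀ (k t : ℕ) (ξ : Fin t → ℝ) (b : Fin t → ℕ) (l : ℕ), MeasurableSet (Lv k ξ b l)) ∧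
  (∀ (k t : ℕ) (ξ : Fin t → ℝ) (b : Fin t → ℕ) (η : ℝ) (l : ℕ), MeasurableSet (Ex k ξ b η l)) ∧
  (∀ (k t : ℕ) (b : Fin t → ℕ) (l : ℕ) (c : ENNReal), MeasurableSet {ξ : Fin t → ℝ | volume (Lv k ξ b l) ≤ c}) ∧
  (∀ (k t : ℕ) (b : Fin t → ℕ) (η : ℝ) (l : ℕ) (c : ENNReal),
    MeasurableSet {ξ : Fin t → ℝ | volume (Ex k ξ b η l) ≤ c})

/-- JOB SPLIT: adding one variable, the first moment -/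
def StSplit : Prop :=
  (∀ (k t : ℕ) (ξ : Fin t → ℝ) (β : ℝ) (b : Fin t → ℕ) (J : ℕ) (η τ : ℝ),
    cn k (Fin.snoc ξ β : Fin (t + 1) → ℝ) (Fin.snoc b J : Fin (t + 1) → ℕ) η τ =
      ∑ x ∈ blk J, cn k ξ b η (τ - ((x : ℝ) + β) ^ k)) ∧
  (∀ (k t : ℕ) (ξ : Fin t → ℝ) (b : Fin t → ℕ) (η τ : ℝ), (cn k ξ b η τ : ℝ) ≤ ((3 : ℝ) ^ mx b) ^ t) ∧
  (∀ (k t : ℕ) (ξ : Fin t → ℝ) (b : Fin t → ℕ) (η η' τ : ℝ), η ≤ η' → cn k ξ b η τ ≤ cn k ξ b η' τ) ∧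
  (∀ (k t : ℕ) (b : Fin t → ℕ) (η τ : ℝ), 0 ≤ vl k b η τ) ∧
  (∀ (k t : ℕ) (ξ : Fin t → ℝ) (b : Fin t → ℕ) (l : ℕ),
    volume (Lv k ξ b l) ≤ ENNReal.ofReal (2 * ((3 : ℝ) ^ mx b) ^ t / 2 ^ l)) ∧
  (∀ (k t : ℕ) (ξ : Fin t → ℝ) (b : Fin t → ℕ) (η : ℝ) (l : ℕ), η ≤ 1 → Ex k ξ b η l ⊆ Lv k ξ b l)

/-- the bound for the level sets; `i = 0` is the first moment -/
def SS (k t i : ℕ) (δ : ℝ) (ξ : Fin t → ℝ) : Prop :=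
  ∃ C : ℕ, ∀ b : Fin t → ℕ, Monotone b → ∀ J l : ℕ, mx b ≤ J →
    (i = 0 ∨ C * ((3 : ℝ) ^ J) ^ ((i : ℝ) - 1 + δ) ≤ 2 ^ l) →
      volume (Lv k ξ b l) ≤
        ENNReal.ofReal (C * ((3 : ℝ) ^ J) ^ ((k : ℝ) + δ) * (((3 : ℝ) ^ J) ^ ((t : ℝ) - k) / 2 ^ l) ^ (2 ^ i))

/-- the same for `J = mx b` only -/
def SS0 (k t i : ℕ) (δ : ℝ) (ξ : Fin t → ℝ) : Prop :=
  ∃ C : ℕ, ∀ b : Fin t → ℕ, Monotone b → ∀ l : ℕ,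
    (i = 0 ∨ C * ((3 : ℝ) ^ mx b) ^ ((i : ℝ) - 1 + δ) ≤ 2 ^ l) →
      volume (Lv k ξ b l) ≤
        ENNReal.ofReal (C * ((3 : ℝ) ^ mx b) ^ ((k : ℝ) + δ) * (((3 : ℝ) ^ mx b) ^ ((t : ℝ) - k) / 2 ^ l) ^ (2 ^ i))

/-- JOB SBASE (assume `StSplit`) -/
def StSbase : Prop := ∀ (k i : ℕ) (δ : ℝ), 2 ≤ k → 0 < δ →
  (∀ (t : ℕ) (ξ : Fin t → ℝ), SS k t 0 δ ξ) ∧ (∀ ξ : Fin 0 → ℝ, SS k 0 i δ ξ)

/-- JOB SCALE (assume `StSplit`): if `k + (t - k) 2 ^ i ≥ 0` the bound increases with `J`; otherwise it implies that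
the level set (slightly changed) is empty: `cn (1) τ ≥ 2 ^ l` gives `cn (1 / 4) τ₀ ≥ 2 ^ (l - 2)` for some `τ₀`, and
then `Lv (l - 2)` contains an interval of length `3 / 2` -/
def StScale : Prop := ∀ (k t i : ℕ) (δ : ℝ), 2 ≤ k → 0 < δ → δ < 1 → ∀ ξ : Fin t → ℝ, SS0 k t i δ ξ → SS k t i δ ξ

/-- the pair bound for the level sets -/
def PL (k t : ℕ) (δ : ℝ) (ξ : Fin t → ℝ) (β : ℝ) : Prop :=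
  ∃ C : ℝ, 0 ≤ C ∧ ∀ (b : Fin t → ℕ) (J l : ℕ), mx b ≤ J →
    pairs k J (Lv k ξ b l) β ≤
      ENNReal.ofReal (C * ((3 : ℝ) ^ J * 2 ^ l) ^ δ * ((3 : ℝ) ^ J) ^ 2 / ((3 : ℝ) ^ J) ^ k) * (volume (Lv k ξ b l)) ^ 2

/-- the pair bound for the excess sets -/
def PE (k t : ℕ) (δ η : ℝ) (ξ : Fin t → ℝ) (β : ℝ) : Prop :=
  ∃ C : ℝ, 0 ≤ C ∧ ∀ (b : Fin t → ℕ) (J l : ℕ), mx b ≤ J →
    pairs k J (Ex k ξ b η l) β ≤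
      ENNReal.ofReal (C * ((3 : ℝ) ^ J * 2 ^ l) ^ δ * ((3 : ℝ) ^ J) ^ 2 / ((3 : ℝ) ^ J) ^ k) *
        (volume (Ex k ξ b η l)) ^ 2

/-- JOB PLE (assume `StPae`, `StMeas`, `StSplit`): the pair bounds hold for almost all `β` -/
def StPle : Prop := ∀ (k t : ℕ) (δ η : ℝ), 2 ≤ k → 0 < δ → η ≤ 1 → ∀ ξ : Fin t → ℝ,
  ∀ᵐ β ∂(volume.restrict (Set.Ioc (0 : ℝ) 1)), PL k t δ ξ β ∧ PE k t δ η ξ β

/-- JOB SSTEP (assume `StSplit`, `StMeas`): the step for the level sets (deterministic) -/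
def StSstep : Prop := ∀ (k t i : ℕ) (δ' : ℝ), 2 ≤ k → 0 < δ' → δ' < 1 → ∃ δ : ℝ, 0 < δ ∧ δ < 1 ∧
  ∀ (ξ : Fin t → ℝ) (β : ℝ), 0 < β → β ≤ 1 → SS k t i δ ξ → SS k t (i + 1) δ ξ → PL k t δ ξ β →
    SS0 k (t + 1) (i + 1) δ' (Fin.snoc ξ β)

/-- JOB SALL (assume all of the above): all levels -/
def StS : Prop := ∀ (k t i : ℕ) (δ : ℝ), 2 ≤ k → 0 < δ → δ < 1 → ∀ᵐ ξ ∂(cube t), SS k t i δ ξ

/-! ### The variance for `k + 1` variables -/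

/-- `e (t) = exp (2 π i t)` -/
noncomputable def e (t : ℝ) : ℂ := Complex.exp ((2 * Real.pi * t : ℝ) * Complex.I)

/-- the exponential sum over a block -/
noncomputable def SB (k a : ℕ) (α ξ : ℝ) : ℂ := ∑ x ∈ blk a, e (α * ((x : ℝ) + ξ) ^ k)

/-- its mean value over `ξ` -/
noncomputable def MB (k a : ℕ) (α : ℝ) : ℂ := ∫ u in (lo a : ℝ)..((3 : ℝ) ^ a), e (α * u ^ k)

/-- its mean square over `ξ` -/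
noncomputable def EB (k a : ℕ) (α : ℝ) : ℝ := ∫ ξ in (0 : ℝ)..1, ‖SB k a α ξ‖ ^ 2

/-- JOB V1: the Fourier transform of the square of the indicator function of the window -/
def StV1 : Prop := ∀ (k t : ℕ) (η : ℝ), 2 ≤ k → 0 < η → ∀ b : Fin t → ℕ,
  ∫⁻ ξ : Fin t → ℝ, (∫⁻ τ : ℝ, ENNReal.ofReal (((cn k ξ b η τ : ℝ) - vl k b η τ) ^ 2)) ∂(cube t) ≤
    ENNReal.ofReal (4 * η ^ 2 * ∫ α : ℝ, Real.sinc (Real.pi * (2 * η * α)) ^ 2 *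
      (∏ i, EB k (b i) α - ∏ i, ‖MB k (b i) α‖ ^ 2))

/-- JOB V2: bounds for one block -/
def StV2 : Prop := ∀ k : ℕ, 2 ≤ k → ∃ C : ℝ, 1 ≤ C ∧ ∀ (a J : ℕ) (α : ℝ), a ≤ J → α ≠ 0 →
  ‖MB k a α‖ ^ 2 ≤ EB k a α ∧ EB k a α ≤ ((3 : ℝ) ^ J) ^ 2 ∧
  EB k a α ≤ C * (1 + J) * ((3 : ℝ) ^ J + |α| ^ (-(2 : ℝ) / k)) ∧
  EB k a α - ‖MB k a α‖ ^ 2 ≤ C * (1 + J) * ((3 : ℝ) ^ J + ((3 : ℝ) ^ J) ^ ((k : ℝ) / 2 + 1) * |α| ^ (1 / 2 : ℝ))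

/-- JOB V3 (assume `StV1`, `StV2`): the variance -/
def StVar : Prop := ∀ (k : ℕ) (η : ℝ), 2 ≤ k → 0 < η → η ≤ 1 → ∃ (C : ℝ) (A : ℕ), 0 < C ∧ ∀ b : Fin (k + 1) → ℕ,
  ∫⁻ ξ : Fin (k + 1) → ℝ, (∫⁻ τ : ℝ, ENNReal.ofReal (((cn k ξ b η τ : ℝ) - vl k b η τ) ^ 2)) ∂(cube (k + 1)) ≤
    ENNReal.ofReal (C * (1 + (mx b : ℝ)) ^ A * ((3 : ℝ) ^ mx b) ^ (k + 1))

/-! ### The excess over the expected number -/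

/-- the bound for the excess sets, for `k + j` variables -/
def TT (k j : ℕ) (δ ε η : ℝ) (ξ : Fin (k + j) → ℝ) : Prop :=
  ∃ C : ℕ, ∀ b : Fin (k + j) → ℕ, Monotone b → ∀ J l : ℕ, mx b ≤ J →
    C * ((3 : ℝ) ^ J) ^ ((j : ℝ) - δ) ≤ 2 ^ l →
      volume (Ex k ξ b η l) ≤
        ENNReal.ofReal (C * ((3 : ℝ) ^ J) ^ ((k : ℝ) - 2 ^ j / 2 + ε) * (((3 : ℝ) ^ J) ^ (j : ℝ) / 2 ^ l) ^ (2 ^ j))

/-- JOB TBASE (assume `StVar`, `StMeas`, `StSplit`): `j = 1` (no condition on `l` is needed there) -/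
def StTbase : Prop := ∀ (k : ℕ) (ε η : ℝ), 2 ≤ k → 0 < ε → 0 < η → η ≤ 1 → ∀ᵐ ξ ∂(cube (k + 1)), TT k 1 1 ε η ξ

/-- JOB TVL: sum over one variable and integral -/
def StTvl : Prop := ∀ (k t : ℕ), 2 ≤ k → k ≤ t → ∃ C : ℝ, 0 < C ∧
  ∀ (b : Fin t → ℕ) (J : ℕ) (η τ β : ℝ), Monotone b → mx b ≤ J → 0 < η → η ≤ 1 → 0 < β → β ≤ 1 →
    ∑ x ∈ blk J, vl k b η (τ - ((x : ℝ) + β) ^ k) ≤
      vl k (Fin.snoc b J : Fin (t + 1) → ℕ) η τ + C * ((3 : ℝ) ^ J) ^ (t - k)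

/-- JOB TSTEP (assume `StSplit`, `StMeas`, `StTvl`): the step for the excess sets (deterministic) -/
def StTstep : Prop := ∀ (k j : ℕ) (ε' : ℝ), 2 ≤ k → 1 ≤ j → 0 < ε' → ∃ ε δs : ℝ, 0 < ε ∧ 0 < δs ∧ δs < 1 ∧
  ∀ δ : ℝ, 0 < δ → ∃ δ' : ℝ, 0 < δ' ∧
  ∀ (η : ℝ) (ξ : Fin (k + j) → ℝ) (β : ℝ), 0 < η → η ≤ 1 → 0 < β → β ≤ 1 →
    TT k j δ ε η ξ → SS k (k + j) (j + 1) δs ξ → PE k (k + j) δs η ξ β →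
      TT k (j + 1) δ' ε' η (Fin.snoc ξ β : Fin (k + j + 1) → ℝ)

/-- JOB TALL (assume `StTbase`, `StTstep`, `StS`, `StPle`, `StAe`, `StMeas`) -/
def StT : Prop := ∀ (k j : ℕ) (ε : ℝ), 2 ≤ k → 1 ≤ j → 0 < ε → ∃ δ : ℝ, 0 < δ ∧
  ∀ η : ℝ, 0 < η → η ≤ 1 → ∀ᵐ ξ ∂(cube (k + j)), TT k j δ ε η ξ

end Pool.Agent.K7.H74.AF
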