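import Pool.Agent.K7.H74.AF.FinD
import Pool.Agent.K7.H87.AF.AE
import Pool.Agent.K7.H79.AF.MEAS
import Pool.Agent.K7.H36.AF.PAE
import Pool.Agent.K7.H36.AF.PLE
import Pool.Agent.K7.H41.AF.PAIR
import Pool.Agent.K7.H61.AF.SALL
import Pool.Agent.K7.H72.AF.SBASE
import Pool.Agent.K7.H72.AF.TBASE
import Pool.Agent.K7.H69.AF.SCALE
import Pool.Agent.K7.H55.AF.SPLIT
import Pool.Agent.K7.H91.AF.SSTEP
import Pool.Agent.K7.H64.AF.TSTEP
import Pool.Agent.K7.H90.AF.TVL
import Pool.Agent.K7.H85.AF.V1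
import Pool.Agent.K7.H15.AF.V2
import Pool.Agent.K7.H99.AF.V3

set_option autoImplicit false

/-! # All jobs of project AF together -/

namespace Pool.Agent.K7.H74.AF

theorem hAe : StAe := Pool.Agent.K7.H87.AF.stAe
theorem hMeas : StMeas := Pool.Agent.K7.H79.AF.stMeas
theorem hSplit : StSplit := Pool.Agent.K7.H55.AF.split
theorem hPair : StPair := Pool.Agent.K7.H41.AF.pair
theorem hPae : StPae := Pool.Agent.K7.H36.AF.pae hPair
theorem hPle : StPle := Pool.Agent.K7.H36.AF.ple hPae hMeas hSplit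
theorem hSbase : StSbase := Pool.Agent.K7.H74.AF.sbase hSplit
theorem hScale : StScale := Pool.Agent.K7.H69.AF.scale
theorem hSstep : StSstep := Pool.Agent.K7.H91.AF.sstep hSplit hMeas
theorem hS : StS := Pool.Agent.K7.H61.AF.sall hSplit hMeas hAe hPle hSbase hScale hSstep
theorem hV1 : StV1 := Pool.Agent.K7.H85.AF.v1
theorem hV2 : StV2 := Pool.Agent.K7.H15.AF.v2
theorem hVar : StVar := Pool.Agent.K7.H99.AF.v3 hV1 hV2
theorem hTbase : StTbase := Pool.Agent.K7.H74.AF.tbase hVar hMeas hSplit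
theorem hTvl : StTvl := Pool.Agent.K7.H90.AF.Tvl.stTvl
theorem hTstep : StTstep := Pool.Agent.K7.H64.AFT.tstep hSplit hMeas hTvl
theorem hT : StT := Pool.Agent.K7.H61.AF.tall hTbase hTstep hS hPle hAe hMeas

end Pool.Agent.K7.H74.AF
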