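import Pool.Agent.K7.H74.AF.Stm
import Pool.Agent.K7.H74.WS.Vol
import Pool.Agent.K7.H74.WS.SlE

set_option autoImplicit false

/-! # Final step, part A: boxes, permutations, the expected number -/

open MeasureTheory Finset

namespace Pool.Agent.K7.H74.AF

/-- boxes up to the scale `J` -/
def bs (J s : ℕ) : Finset (Fin s → ℕ) := Fintype.piFinset fun _ : Fin s => Finset.range (J + 1)

theorem mem_bs {J s : ℕ} {b : Fin s → ℕ} : b ∈ bs J s ↔ ∀ i, b i ≤ J := by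
  simp [bs, Fintype.mem_piFinset, Nat.lt_succ_iff]

theorem card_bs (J s : ℕ) : (bs J s).card = (J + 1) ^ s := by
  simp [bs, Fintype.card_piFinset]

theorem mx_le {J s : ℕ} {b : Fin s → ℕ} (hb : b ∈ bs J s) : mx b ≤ J :=
  Finset.sup_le fun i _ => mem_bs.1 hb i

theorem lo_zero : lo 0 = 0 := rfl
theorem lo_succ (a : ℕ) : lo (a + 1) = 3 ^ a := by simp [lo]

/-- every natural number is in a block -/
theorem exists_blk {x J : ℕ} (h : x < 3 ^ J) : ∃ a, a ≤ J ∧ x ∈ blk a := by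
  rcases Nat.eq_zero_or_pos x with h0 | h0
  · refine ⟨0, Nat.zero_le _, ?_⟩
    simp [blk, lo, h0]
  · refine ⟨Nat.log 3 x + 1, ?_, ?_⟩
    · have h1 : 3 ^ Nat.log 3 x ≤ x := Nat.pow_log_le_self 3 h0.ne'
      have h2 : 3 ^ Nat.log 3 x < 3 ^ J := lt_of_le_of_lt h1 h
      exact (Nat.pow_lt_pow_iff_right (by norm_num)).1 h2
    · rw [blk, Finset.mem_Ico, lo_succ]
      exact ⟨Nat.pow_log_le_self 3 h0.ne', Nat.lt_pow_succ_log_self (by norm_num) x⟩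

theorem lo_ge {a a' : ℕ} (h : a < a') : 3 ^ a ≤ lo a' := by
  obtain ⟨c, rfl⟩ : ∃ c, a' = c + 1 := ⟨a' - 1, by omega⟩
  rw [lo_succ]
  exact Nat.pow_le_pow_right (by norm_num) (by omega)

open Classical in
/-- the representations are in the boxes -/
theorem rn_le {k s J : ℕ} {ξ : Fin s → ℝ} (hξ : ∀ i, 0 ≤ ξ i) {n : ℕ} (h : (n : ℝ) + 1 ≤ ((3 : ℝ) ^ J) ^ k) :
    WS.rn k ξ n ≤ ∑ b ∈ bs J s, cn k ξ b (1 / 2) ((n : ℝ) + 1 / 2) := by
  rw [WS.rn_eq hξ h]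
  have h1 : ((WS.box J s).filter fun x => (n : ℝ) ≤ WS.sp k ξ x ∧
      WS.sp k ξ x < n + 1) ⊆ (bs J s).biUnion fun b => (Box b).filter fun x =>
        |∑ i, ((x i : ℝ) + ξ i) ^ k - ((n : ℝ) + 1 / 2)| ≤ 1 / 2 := by
    intro x hx
    rw [Finset.mem_filter] at hx
    obtain ⟨hx1, hx2, hx3⟩ := hx
    unfold WS.box at hx1
    rw [Fintype.mem_piFinset] at hx1
    have h2 : ∀ i, ∃ a, a ≤ J ∧ x i ∈ blk a := fun i => exists_blk (Finset.mem_range.1 (hx1 i))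
    choose a ha1 ha2 using h2
    rw [Finset.mem_biUnion]
    refine ⟨a, mem_bs.2 ha1, ?_⟩
    rw [Finset.mem_filter]
    refine ⟨Fintype.mem_piFinset.2 ha2, ?_⟩
    unfold WS.sp at hx2 hx3
    rw [abs_le]
    constructor <;> linarith
  exact (Finset.card_le_card h1).trans Finset.card_biUnion_le

/-! ### permutations -/

theorem cn_perm (k : ℕ) {s : ℕ} (ξ : Fin s → ℝ) (b : Fin s → ℕ) (η τ : ℝ) (σ : Equiv.Perm (Fin s)) :
    cn k (ξ ∘ σ) (b ∘ σ) η τ = cn k ξ b η τ := by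
  classical
  unfold cn
  symm
  refine Finset.card_bij (fun x _ => x ∘ σ) ?_ ?_ ?_
  · intro x hx
    rw [Finset.mem_filter] at hx ⊢
    obtain ⟨h1, h2⟩ := hx
    unfold Box at h1 ⊢
    rw [Fintype.mem_piFinset] at h1 ⊢
    refine ⟨fun i => h1 (σ i), ?_⟩
    have h3 : ∑ i, (((x ∘ σ) i : ℕ) + (ξ ∘ σ) i : ℝ) ^ k = ∑ i, ((x i : ℝ) + ξ i) ^ k :=
      Equiv.sum_comp σ (fun i => ((x i : ℝ) + ξ i) ^ k)
    rw [h3]
    exact h2
  · intro x _ y _ hxy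
    have : (x ∘ σ) ∘ σ.symm = (y ∘ σ) ∘ σ.symm := by rw [hxy]
    funext i
    have h4 := congrFun this i
    simpa using h4
  · intro y hy
    rw [Finset.mem_filter] at hy
    obtain ⟨h1, h2⟩ := hy
    unfold Box at h1
    rw [Fintype.mem_piFinset] at h1
    refine ⟨y ∘ σ.symm, ?_, ?_⟩
    · rw [Finset.mem_filter]
      unfold Box
      rw [Fintype.mem_piFinset]
      refine ⟨fun i => ?_, ?_⟩
      · have h5 := h1 (σ.symm i)
        simpa using h5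
      · have h3 : ∑ i, (((y ∘ σ.symm) i : ℕ) + ξ i : ℝ) ^ k = ∑ i, ((y i : ℝ) + (ξ ∘ σ) i) ^ k := by
          rw [← Equiv.sum_comp σ (fun i => (((y ∘ σ.symm) i : ℕ) + ξ i : ℝ) ^ k)]
          simp
        rw [h3]
        exact h2
    · funext i
      simp

theorem vl_perm (k : ℕ) {s : ℕ} (b : Fin s → ℕ) (η τ : ℝ) (σ : Equiv.Perm (Fin s)) :
    vl k (b ∘ σ) η τ = vl k b η τ := by
  unfold vl
  congr 1
  have hmp := volume_measurePreserving_piCongrLeft (fun _ : Fin s => ℝ) σ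
  have h1 := hmp.measure_preimage_equiv
    {u : Fin s → ℝ | (∀ i, (lo (b i) : ℝ) ≤ u i ∧ u i < 3 ^ b i) ∧ |∑ i, u i ^ k - τ| ≤ η}
  rw [← h1]
  congr 1
  ext u
  have h2 : ∀ i, (MeasurableEquiv.piCongrLeft (fun _ : Fin s => ℝ) σ) u i = u (σ.symm i) := by
    intro i
    have h3 := Equiv.piCongrLeft_apply_apply (fun _ : Fin s => ℝ) σ u (σ.symm i)
    rw [Equiv.apply_symm_apply] at h3
    exact h3
  simp only [Set.mem_preimage, Set.mem_setOf_eq, Function.comp_apply, h2]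
  constructor
  · rintro ⟨h3, h4⟩
    refine ⟨fun i => ?_, ?_⟩
    · have h5 := h3 (σ.symm i)
      simpa using h5
    · have h6 : ∑ i, u (σ.symm i) ^ k = ∑ i, u i ^ k := Equiv.sum_comp σ.symm (fun i => u i ^ k)
      rw [h6]
      exact h4
  · rintro ⟨h3, h4⟩
    refine ⟨fun i => ?_, ?_⟩
    · have h5 := h3 (σ i)
      simpa using h5
    · have h6 : ∑ i, u (σ.symm i) ^ k = ∑ i, u i ^ k := Equiv.sum_comp σ.symm (fun i => u i ^ k)
      rw [h6] at h4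
      exact h4

theorem Ex_perm (k : ℕ) {s : ℕ} (ξ : Fin s → ℝ) (b : Fin s → ℕ) (η : ℝ) (l : ℕ) (σ : Equiv.Perm (Fin s)) :
    Ex k (ξ ∘ σ) (b ∘ σ) η l = Ex k ξ b η l := by
  unfold Ex
  ext τ
  simp only [Set.mem_setOf_eq, cn_perm, vl_perm]

theorem mx_perm {s : ℕ} (b : Fin s → ℕ) (σ : Equiv.Perm (Fin s)) : mx (b ∘ σ) ≤ mx b :=
  Finset.sup_le fun i _ => Finset.le_sup (f := b) (Finset.mem_univ (σ i))

end Pool.Agent.K7.H74.AF
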