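import Pool.Agent.K7.H74.AF.FinA
import Pool.Agent.K7.H74.WS.Fin

set_option autoImplicit false

/-! # Final step, part B: the expected number -/

open MeasureTheory Finset

namespace Pool.Agent.K7.H74.AF

/-- the region of a box -/
def Rg (k : ℕ) {s : ℕ} (b : Fin s → ℕ) (η τ : ℝ) : Set (Fin s → ℝ) :=
  {u | (∀ i, (lo (b i) : ℝ) ≤ u i ∧ u i < 3 ^ b i) ∧ |∑ i, u i ^ k - τ| ≤ η}

theorem Rg_meas (k : ℕ) {s : ℕ} (b : Fin s → ℕ) (η τ : ℝ) : MeasurableSet (Rg k b η τ) := by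
  have h1 : Rg k b η τ = (Set.univ.pi fun i => Set.Ico (lo (b i) : ℝ) (3 ^ b i)) ∩
      {u : Fin s → ℝ | |∑ i, u i ^ k - τ| ≤ η} := by
    ext u
    simp [Rg, Set.mem_pi, Set.mem_Ico]
  rw [h1]
  exact (MeasurableSet.univ_pi fun i => measurableSet_Ico).inter (measurableSet_le (by fun_prop) measurable_const)

theorem Rg_disj (k : ℕ) {s : ℕ} {b b' : Fin s → ℕ} (h : b ≠ b') (η τ : ℝ) :
    Disjoint (Rg k b η τ) (Rg k b' η τ) := by
  rw [Set.disjoint_left]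
  rintro u ⟨h1, _⟩ ⟨h2, _⟩
  apply h
  funext i
  by_contra h3
  obtain ⟨h4, h5⟩ := h1 i
  obtain ⟨h6, h7⟩ := h2 i
  rcases Nat.lt_or_gt_of_ne h3 with h8 | h8
  · have h9 : ((3 ^ b i : ℕ) : ℝ) ≤ (lo (b' i) : ℝ) := by exact_mod_cast lo_ge h8
    push_cast at h9
    linarith
  · have h9 : ((3 ^ b' i : ℕ) : ℝ) ≤ (lo (b i) : ℝ) := by exact_mod_cast lo_ge h8
    push_cast at h9
    linarith

theorem sum_vl_le {k J s : ℕ} (hk : 1 ≤ k) {η c a : ℝ} {τ : ℝ} (hη : 0 ≤ η) (ha : 0 < a) (haτ : a ≤ τ - η)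
    (hc : τ + η < c) (hcX : c ≤ ((3 : ℝ) ^ J) ^ k) :
    ∑ b ∈ bs J s, vl k b η τ ≤ WS.Vs k s * (c ^ ((s : ℝ) / k) - a ^ ((s : ℝ) / k)) := by
  classical
  set W1 : Set (Fin s → ℝ) := {u | ∑ i, u i ^ k < c} with hW1
  set W2 : Set (Fin s → ℝ) := {u | ∑ i, u i ^ k < a} with hW2
  have hW1m : MeasurableSet W1 := measurableSet_lt (by fun_prop) measurable_const
  have hW2m : MeasurableSet W2 := measurableSet_lt (by fun_prop) measurable_const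
  have hac : a < c := by linarith
  have hc0 : 0 < c := by linarith
  have hsub : W2 ⊆ W1 := fun u hu => lt_trans hu hac
  have h1 := WS.GF_eq (s := s) hk hc0 hcX
  have h2 := WS.GF_eq (s := s) hk ha (hac.le.trans hcX)
  haveI : IsFiniteMeasure (WS.bm J s) := by
    rw [WS.bm_eq]
    constructor
    rw [Measure.restrict_apply_univ]
    exact (Bornology.IsBounded.measure_lt_top (Metric.isBounded_Icc (fun _ => (0:ℝ)) (fun _ => ((3 ^ J : ℕ) : ℝ)) |>.subset (by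
      intro u hu
      rw [Set.mem_Icc]
      exact ⟨fun i => (hu i (Set.mem_univ i)).1.le, fun i => (hu i (Set.mem_univ i)).2⟩)))
  have h3 : (WS.bm J s).real (W1 \ W2) = WS.Vs k s * (c ^ ((s : ℝ) / k) - a ^ ((s : ℝ) / k)) := by
    rw [measureReal_diff hsub hW2m, h1, h2]
    ring
  rw [← h3]
  set U : Set (Fin s → ℝ) := ⋃ b ∈ bs J s, Rg k b η τ with hU
  have hUm : MeasurableSet U := Finset.measurableSet_biUnion _ fun b _ => Rg_meas k b η τ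
  have hUI : U ⊆ Set.Icc (fun _ => (0:ℝ)) (fun _ => ((3 ^ J : ℕ) : ℝ)) := by
    intro u hu
    rw [hU, Set.mem_iUnion₂] at hu
    obtain ⟨b, hb, h4, _⟩ := hu
    rw [Set.mem_Icc]
    refine ⟨fun i => (Nat.cast_nonneg _).trans (h4 i).1, fun i => ?_⟩
    have h5 : (3:ℝ) ^ b i ≤ 3 ^ J := pow_le_pow_right₀ (by norm_num) (mem_bs.1 hb i)
    push_cast
    exact (h4 i).2.le.trans h5
  have hUW : U ⊆ W1 \ W2 := by
    intro u hu
    rw [hU, Set.mem_iUnion₂] at hu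
    obtain ⟨b, hb, _, h4⟩ := hu
    rw [abs_le] at h4
    refine ⟨?_, ?_⟩
    · change ∑ i, u i ^ k < c
      linarith
    · change ¬ (∑ i, u i ^ k < a)
      push Not
      linarith
  have hae : (Set.univ.pi fun _ : Fin s => Set.Ioc (0 : ℝ) ((3 ^ J : ℕ) : ℝ)) =ᵐ[volume]
      Set.Icc (fun _ => (0:ℝ)) (fun _ => ((3 ^ J : ℕ) : ℝ)) := by
    have := Measure.univ_pi_Ioc_ae_eq_Icc (μ := fun _ : Fin s => (volume : Measure ℝ)) (f := fun _ => (0:ℝ))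
      (g := fun _ => ((3 ^ J : ℕ) : ℝ))
    rwa [← volume_pi] at this
  have h6 : volume U = (WS.bm J s) U := by
    rw [WS.bm_eq, Measure.restrict_congr_set hae, Measure.restrict_apply hUm, Set.inter_eq_left.2 hUI]
  have hfin : ∀ b ∈ bs J s, volume (Rg k b η τ) ≠ ⊤ := by
    intro b hb
    have h7 : Rg k b η τ ⊆ U := Set.subset_biUnion_of_mem (u := fun b => Rg k b η τ) hb
    refine ne_top_of_le_ne_top ?_ (measure_mono h7)
    rw [h6]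
    exact measure_ne_top _ _
  have h8 : ∑ b ∈ bs J s, vl k b η τ = (volume U).toReal := by
    rw [hU, measure_biUnion_finset (fun b _ b' _ hbb => Rg_disj k hbb η τ) (fun b _ => Rg_meas k b η τ),
      ENNReal.toReal_sum hfin]
    rfl
  rw [h8, h6, ← measureReal_def]
  exact measureReal_mono hUW

open Filter Topology in
/-- the expected number for the whole problem -/
theorem exp_bound {ρ V ε : ℝ} (hρ : 1 ≤ ρ) (hV : 0 < V) (hε : 0 < ε) :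
    ∃ κ : ℝ, 0 < κ ∧ κ ≤ 1 / 8 ∧ ∃ n₀ : ℕ, 2 ≤ n₀ ∧ ∀ n : ℕ, n₀ ≤ n →
      V * (((n : ℝ) + 1 / 2 + (1 / 2 + κ) + κ) ^ ρ - ((n : ℝ) + 1 / 2 - (1 / 2 + κ)) ^ ρ) ≤
        (1 + ε) * (V * ρ * (n : ℝ) ^ (ρ - 1)) := by
  set κ : ℝ := min ε 1 / 8 with hκ
  have hκ0 : 0 < κ := by positivity
  have hκ1 : κ ≤ 1 / 8 := by rw [hκ]; have := min_le_right ε 1; linarith
  have hκε : κ ≤ ε / 8 := by rw [hκ]; have := min_le_left ε 1; linarith
  have h1 : Tendsto (fun n : ℕ => (((n : ℝ) + 2) / n) ^ (ρ - 1)) atTop (𝓝 1) := by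
    have h2 : Tendsto (fun n : ℕ => ((n : ℝ) + 2) / n) atTop (𝓝 1) := by
      have h3 : Tendsto (fun n : ℕ => 1 + 2 / (n : ℝ)) atTop (𝓝 (1 + 0)) :=
        tendsto_const_nhds.add (tendsto_const_div_atTop_nhds_zero_nat 2)
      rw [add_zero] at h3
      refine h3.congr' ?_
      filter_upwards [eventually_gt_atTop 0] with n hn
      have hn0 : (n : ℝ) ≠ 0 := by positivity
      field_simp
    have h4 := h2.rpow_const (p := ρ - 1) (Or.inl one_ne_zero)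
    rwa [Real.one_rpow] at h4
  have hlt : (1 : ℝ) < (1 + ε) / (1 + 3 * κ) := by
    rw [one_lt_div (by positivity)]
    linarith
  have h5 : ∀ᶠ n : ℕ in atTop, (((n : ℝ) + 2) / n) ^ (ρ - 1) ≤ (1 + ε) / (1 + 3 * κ) :=
    (h1.eventually (gt_mem_nhds hlt)).mono fun n hn => le_of_lt hn
  obtain ⟨n₁, hn₁⟩ := eventually_atTop.1 h5
  refine ⟨κ, hκ0, hκ1, max n₁ 2, le_max_right _ _, fun n hn => ?_⟩
  have hn2 : 2 ≤ n := (le_max_right _ _).trans hn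
  have hnr : (2 : ℝ) ≤ n := by exact_mod_cast hn2
  have hn0 : (0 : ℝ) < n := by linarith
  have h6 := hn₁ n ((le_max_left _ _).trans hn)
  rw [Real.div_rpow (by linarith) hn0.le, div_le_iff₀ (Real.rpow_pos_of_pos hn0 _)] at h6
  have h7 := WS.bern_upper (a := (n : ℝ) + 1 / 2 - (1 / 2 + κ)) (b := (n : ℝ) + 1 / 2 + (1 / 2 + κ) + κ) (ρ := ρ)
    (by linarith) (by linarith) hρ
  have h8 : ((n : ℝ) + 1 / 2 + (1 / 2 + κ) + κ) ^ (ρ - 1) ≤ ((n : ℝ) + 2) ^ (ρ - 1) :=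
    Real.rpow_le_rpow (by linarith) (by linarith) (by linarith)
  have h9 : ((n : ℝ) + 1 / 2 + (1 / 2 + κ) + κ) - ((n : ℝ) + 1 / 2 - (1 / 2 + κ)) = 1 + 3 * κ := by ring
  rw [h9] at h7
  have h10 : ρ * ((n : ℝ) + 1 / 2 + (1 / 2 + κ) + κ) ^ (ρ - 1) * (1 + 3 * κ) ≤
      ρ * ((1 + ε) / (1 + 3 * κ) * (n : ℝ) ^ (ρ - 1)) * (1 + 3 * κ) := by
    have h11 := h8.trans h6
    gcongr
  have h12 : ρ * ((1 + ε) / (1 + 3 * κ) * (n : ℝ) ^ (ρ - 1)) * (1 + 3 * κ) = (1 + ε) * (ρ * (n : ℝ) ^ (ρ - 1)) := by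
    have : (1 + 3 * κ) ≠ 0 := by positivity
    field_simp
  rw [h12] at h10
  calc V * (((n : ℝ) + 1 / 2 + (1 / 2 + κ) + κ) ^ ρ - ((n : ℝ) + 1 / 2 - (1 / 2 + κ)) ^ ρ)
      ≤ V * ((1 + ε) * (ρ * (n : ℝ) ^ (ρ - 1))) := mul_le_mul_of_nonneg_left (h7.trans h10) hV.le
    _ = _ := by ring

end Pool.Agent.K7.H74.AF
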