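import Pool.Agent.K7.H74.AF.FinB

set_option autoImplicit false

/-! # Final step, part C: one scale -/

open MeasureTheory Finset Filter

namespace Pool.Agent.K7.H74.AF

theorem card_le_vol {E : Set ℝ} {ω C : ℝ} (hω1 : ω ≤ 1 / 4) (hC : 0 ≤ C) (Z : Finset ℕ)
    (hZ : ∀ n ∈ Z, Set.Icc ((n:ℝ) + 1 / 2 - ω) ((n:ℝ) + 1 / 2 + ω) ⊆ E) (hE : volume E ≤ ENNReal.ofReal C) :
    (Z.card : ℝ) * (2 * ω) ≤ C := by
  have h1 : volume (⋃ n ∈ Z, Set.Icc ((n:ℝ) + 1 / 2 - ω) ((n:ℝ) + 1 / 2 + ω)) = Z.card * ENNReal.ofReal (2 * ω) := by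
    rw [measure_biUnion_finset]
    · have h2 : ∀ n ∈ Z, volume (Set.Icc ((n:ℝ) + 1 / 2 - ω) ((n:ℝ) + 1 / 2 + ω)) = ENNReal.ofReal (2 * ω) := by
        intro n _
        rw [Real.volume_Icc]
        congr 1
        ring
      rw [Finset.sum_congr rfl h2, Finset.sum_const, nsmul_eq_mul]
    · intro a _ b _ hab
      rw [Function.onFun, Set.disjoint_left]
      rintro t ⟨h3, h4⟩ ⟨h5, h6⟩
      rcases Nat.lt_or_gt_of_ne hab with h | h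
      · have : (a:ℝ) + 1 ≤ b := by exact_mod_cast h
        linarith
      · have : (b:ℝ) + 1 ≤ a := by exact_mod_cast h
        linarith
    · intro n _
      exact measurableSet_Icc
  have h2 : (⋃ n ∈ Z, Set.Icc ((n:ℝ) + 1 / 2 - ω) ((n:ℝ) + 1 / 2 + ω)) ⊆ E := by
    intro t ht
    rw [Set.mem_iUnion₂] at ht
    obtain ⟨n, hn, ht⟩ := ht
    exact hZ n hn ht
  have h3 := (measure_mono h2).trans hE
  rw [h1, ← ENNReal.ofReal_natCast, ← ENNReal.ofReal_mul (Nat.cast_nonneg _)] at h3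
  exact (ENNReal.ofReal_le_ofReal_iff hC).1 h3

/-- powers of `J + 1` are smaller than small powers of `3 ^ J` -/
theorem poly_small (s : ℕ) {A δ : ℝ} (hδ : 0 < δ) :
    ∃ J₀ : ℕ, ∀ J : ℕ, J₀ ≤ J → A * ((J : ℝ) + 1) ^ s ≤ ((3 : ℝ) ^ J) ^ δ := by
  have h3δ : (1 : ℝ) < (3 : ℝ) ^ δ := Real.one_lt_rpow (by norm_num) hδ
  have h1 : Tendsto (fun J : ℕ => ((J : ℝ)) ^ s / ((3 : ℝ) ^ δ) ^ J) atTop (nhds 0) :=
    tendsto_pow_const_div_const_pow_of_one_lt s h3δ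
  have h2 : Tendsto (fun J : ℕ => |A| * (3:ℝ) ^ δ * ((((J + 1 : ℕ) : ℝ)) ^ s / ((3 : ℝ) ^ δ) ^ (J + 1))) atTop (nhds (|A| * (3:ℝ) ^ δ * 0)) :=
    ((tendsto_add_atTop_iff_nat 1).2 h1).const_mul _
  rw [mul_zero] at h2
  have h3 := h2.eventually (gt_mem_nhds zero_lt_one)
  obtain ⟨J₀, hJ₀⟩ := eventually_atTop.1 h3
  refine ⟨J₀, fun J hJ => ?_⟩
  have h4 := hJ₀ J hJ
  have h5 : ((3 : ℝ) ^ δ) ^ (J + 1) = (3:ℝ) ^ δ * ((3:ℝ) ^ J) ^ δ := by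
    rw [pow_succ, mul_comm]
    congr 1
    rw [← Real.rpow_natCast, ← Real.rpow_natCast, ← Real.rpow_mul (by norm_num), ← Real.rpow_mul (by norm_num), mul_comm]
  rw [h5] at h4
  have h6 : 0 < (3:ℝ) ^ δ := by positivity
  have h7 : 0 < ((3:ℝ) ^ J) ^ δ := by positivity
  have h8 : |A| * (3:ℝ) ^ δ * ((((J + 1 : ℕ) : ℝ)) ^ s / ((3:ℝ) ^ δ * ((3:ℝ) ^ J) ^ δ)) =
      |A| * ((J : ℝ) + 1) ^ s / ((3:ℝ) ^ J) ^ δ := by
    push_cast
    field_simp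
  rw [h8, div_lt_one h7] at h4
  have h9 : A * ((J : ℝ) + 1) ^ s ≤ |A| * ((J : ℝ) + 1) ^ s :=
    mul_le_mul_of_nonneg_right (le_abs_self A) (by positivity)
  linarith

open Classical in
/-- the numbers with many representations, at the scale `J` -/
noncomputable def RJ (k : ℕ) {s : ℕ} (ξ : Fin s → ℝ) (ε : ℝ) (J : ℕ) : Finset ℕ :=
  (Finset.range ((3 ^ J) ^ k)).filter fun n => (3 ^ (J - 1)) ^ k < n + 1 ∧
    (1 + ε) * (WS.Vs k s * ((s : ℝ) / k) * (n : ℝ) ^ ((s : ℝ) / k - 1)) < (WS.rn k ξ n : ℝ)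

theorem rich_scale {k j : ℕ} (hk : 2 ≤ k) (hj : 1 ≤ j) {ε δ e : ℝ} (hε : 0 < ε) (hδ : 0 < δ) (hδ1 : δ ≤ 1)
    (he : 0 < e) (hV : 0 < WS.Vs k (k + j)) {κ : ℝ} (hκ0 : 0 < κ) (hκ1 : κ ≤ 1 / 8) {n₀ : ℕ} (hn₀ : 2 ≤ n₀)
    (hκ : ∀ n : ℕ, n₀ ≤ n →
      WS.Vs k (k + j) * (((n : ℝ) + 1 / 2 + (1 / 2 + κ) + κ) ^ (((k + j : ℕ) : ℝ) / k) -
        ((n : ℝ) + 1 / 2 - (1 / 2 + κ)) ^ (((k + j : ℕ) : ℝ) / k)) ≤
        (1 + ε / 2) * (WS.Vs k (k + j) * (((k + j : ℕ) : ℝ) / k) * (n : ℝ) ^ (((k + j : ℕ) : ℝ) / k - 1)))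
    {ξ : Fin (k + j) → ℝ} (hξ : ∀ i, 0 ≤ ξ i) (hT : ∀ σ : Equiv.Perm (Fin (k + j)), TT k j δ e (1 / 2 + κ / 2) (ξ ∘ σ)) :
    ∃ C : ℝ, 0 < C ∧ ∃ J₀ : ℕ, ∀ J : ℕ, J₀ ≤ J →
      ((RJ k ξ ε J).card : ℝ) ≤ C * ((3 : ℝ) ^ J) ^ ((k : ℝ) - 2 ^ j / 2 + e + 2 ^ j * δ + e) := by
  classical
  have hk0 : (0 : ℝ) < k := by exact_mod_cast (by omega : 0 < k)
  have hj0 : (1 : ℝ) ≤ j := by exact_mod_cast hj
  choose Cσ hCσ using hT
  set C : ℕ := 1 + ∑ σ, Cσ σ with hC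
  have hCle : ∀ σ, Cσ σ ≤ C := by
    intro σ
    have := Finset.single_le_sum (f := Cσ) (fun _ _ => Nat.zero_le _) (Finset.mem_univ σ)
    omega
  have hC1 : (1 : ℝ) ≤ C := by exact_mod_cast (by omega : 1 ≤ C)
  have hC0 : (0 : ℝ) < C := by linarith
  -- the bound for all boxes
  have hbox : ∀ (J l : ℕ) (b : Fin (k + j) → ℕ), b ∈ bs J (k + j) → C * ((3 : ℝ) ^ J) ^ ((j : ℝ) - δ) ≤ 2 ^ l →
      volume (Ex k ξ b (1 / 2 + κ / 2) l) ≤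
        ENNReal.ofReal (C * ((3 : ℝ) ^ J) ^ ((k : ℝ) - 2 ^ j / 2 + e) * (((3 : ℝ) ^ J) ^ (j : ℝ) / 2 ^ l) ^ (2 ^ j)) := by
    intro J l b hb hl
    set σ := Tuple.sort b with hσ
    have h1 := hCσ σ (b ∘ σ) (Tuple.monotone_sort b) J l ((mx_perm b σ).trans (mx_le hb)) (by
      refine le_trans ?_ hl
      have : (Cσ σ : ℝ) ≤ C := by exact_mod_cast hCle σ
      gcongr)
    rw [Ex_perm] at h1
    refine h1.trans (ENNReal.ofReal_le_ofReal ?_)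
    have : (Cσ σ : ℝ) ≤ C := by exact_mod_cast hCle σ
    gcongr
  set ρ : ℝ := ((k + j : ℕ) : ℝ) / k with hρ
  have hρ1 : ρ - 1 = (j : ℝ) / k := by
    rw [hρ]; push_cast; field_simp; ring
  have hρ0 : 1 ≤ ρ := by
    have : 0 ≤ (j : ℝ) / k := by positivity
    linarith
  set V : ℝ := WS.Vs k (k + j) with hVdef
  -- large `J`
  obtain ⟨J₁, hJ₁⟩ := poly_small (k + j) (A := 4 * C * 3 ^ j / (ε * (V * ρ))) hδ
  obtain ⟨J₂, hJ₂⟩ := poly_small (k + j) (A := 1) he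
  refine ⟨C / κ, by positivity, max (max J₁ J₂) (n₀ + 1), fun J hJ => ?_⟩
  have hJ1 : J₁ ≤ J := (le_max_left _ _).trans ((le_max_left _ _).trans hJ)
  have hJ2 : J₂ ≤ J := (le_max_right _ _).trans ((le_max_left _ _).trans hJ)
  have hJ3 : n₀ + 1 ≤ J := (le_max_right _ _).trans hJ
  set Z : ℝ := (3 : ℝ) ^ J with hZ
  have hZ1 : 1 ≤ Z := one_le_pow₀ (by norm_num)
  have hZ0 : 0 < Z := by linarith
  -- the level
  have hex : ∃ l : ℕ, C * Z ^ ((j : ℝ) - δ) ≤ 2 ^ l := pow_unbounded_of_one_lt _ (by norm_num : (1:ℝ) < 2) |>.imp fun l hl => hl.le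
  set l := Nat.find hex with hl
  have hl1 : C * Z ^ ((j : ℝ) - δ) ≤ 2 ^ l := Nat.find_spec hex
  have hCZ : 1 ≤ C * Z ^ ((j : ℝ) - δ) := by
    have h1 : 1 ≤ Z ^ ((j : ℝ) - δ) := Real.one_le_rpow hZ1 (by linarith)
    nlinarith
  have hl2 : (2:ℝ) ^ l ≤ 2 * (C * Z ^ ((j : ℝ) - δ)) := by
    rcases Nat.eq_zero_or_pos l with h0 | h0
    · rw [h0, pow_zero]
      linarith
    · obtain ⟨l', hl'⟩ : ∃ l', l = l' + 1 := ⟨l - 1, by omega⟩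
      have h1 : ¬ (C * Z ^ ((j : ℝ) - δ) ≤ 2 ^ l') := Nat.find_min hex (by omega)
      push Not at h1
      rw [hl', pow_succ]
      linarith
  -- every rich number gives an interval in an excess set
  have hcov : RJ k ξ ε J ⊆ (bs J (k + j)).biUnion fun b => (RJ k ξ ε J).filter fun n : ℕ =>
      Set.Icc ((n:ℝ) + 1 / 2 - κ / 2) ((n:ℝ) + 1 / 2 + κ / 2) ⊆ Ex k ξ b (1 / 2 + κ / 2) l := by
    intro n hn
    have hn' := hn
    unfold RJ at hn'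
    rw [Finset.mem_filter, Finset.mem_range] at hn'
    obtain ⟨hn1, hn2, hn3⟩ := hn'
    have hn4 : (n : ℝ) + 1 ≤ ((3 : ℝ) ^ J) ^ k := by exact_mod_cast hn1
    have hn5 : ((3 : ℝ) ^ (J - 1)) ^ k ≤ n := by exact_mod_cast Nat.lt_succ_iff.1 hn2
    have hn6 : n₀ ≤ n := by
      have h1 : J - 1 < 3 ^ (J - 1) := Nat.lt_pow_self (by norm_num)
      have h2 : 3 ^ (J - 1) ≤ (3 ^ (J - 1)) ^ k := Nat.le_self_pow (by omega) _
      omega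
    have hn0 : (2 : ℝ) ≤ n := by exact_mod_cast hn₀.trans hn6
    set E : ℝ := V * ρ * (n : ℝ) ^ (ρ - 1) with hE
    have hE0 : 0 < E := by positivity
    -- sum over the boxes
    have h1 : (WS.rn k ξ n : ℝ) ≤ ∑ b ∈ bs J (k + j), (cn k ξ b (1 / 2) ((n : ℝ) + 1 / 2) : ℝ) := by
      exact_mod_cast rn_le hξ hn4
    have h2 : ∑ b ∈ bs J (k + j), vl k b (1 / 2 + κ) ((n : ℝ) + 1 / 2) ≤ (1 + ε / 2) * E := by
      have h3 : ∑ b ∈ bs J (k + j), vl k b (1 / 2 + κ) ((n : ℝ) + 1 / 2) ≤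
          ∑ b ∈ bs (J + 1) (k + j), vl k b (1 / 2 + κ) ((n : ℝ) + 1 / 2) := by
        apply Finset.sum_le_sum_of_subset_of_nonneg
        · intro b hb
          exact mem_bs.2 fun i => (mem_bs.1 hb i).trans (Nat.le_succ J)
        · intro b _ _
          exact ENNReal.toReal_nonneg
      refine h3.trans ((sum_vl_le (k := k) (J := J + 1) (s := k + j) (by omega) (η := 1 / 2 + κ) (c := (n : ℝ) + 1 / 2 + (1 / 2 + κ) + κ)
        (a := (n : ℝ) + 1 / 2 - (1 / 2 + κ)) (by linarith) (by linarith) le_rfl (by linarith) ?_).trans (hκ n hn6))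
      have h4 : ((3 : ℝ) ^ (J + 1)) ^ k = 3 ^ k * ((3:ℝ) ^ J) ^ k := by
        rw [pow_succ, mul_pow, mul_comm]
      have h5 : (3:ℝ) ≤ 3 ^ k := le_self_pow₀ (by norm_num) (by omega)
      rw [h4]
      nlinarith
    -- the lower bound for `E`
    have hElow : V * ρ * (Z ^ (j : ℝ) / 3 ^ j) ≤ E := by
      rw [hE, hρ1]
      apply mul_le_mul_of_nonneg_left _ (by positivity)
      have h6 : (((3 : ℝ) ^ (J - 1)) ^ k) ^ ((j : ℝ) / k) ≤ (n : ℝ) ^ ((j : ℝ) / k) :=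
        Real.rpow_le_rpow (by positivity) hn5 (by positivity)
      refine le_trans (le_of_eq ?_) h6
      rw [← Real.rpow_natCast ((3:ℝ) ^ (J - 1)) k, ← Real.rpow_mul (by positivity), mul_div_cancel₀ _ hk0.ne', Real.rpow_natCast,
        Real.rpow_natCast, hZ]
      obtain ⟨J', rfl⟩ : ∃ J', J = J' + 1 := ⟨J - 1, by omega⟩
      rw [Nat.add_sub_cancel, pow_succ, mul_pow]
      field_simp
    -- a box with a large excess
    have h7 : ∃ b ∈ bs J (k + j), vl k b (1 / 2 + κ) ((n : ℝ) + 1 / 2) + 2 ^ l ≤ cn k ξ b (1 / 2) ((n : ℝ) + 1 / 2) := by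
      by_contra hcon
      push Not at hcon
      have h8 : ∑ b ∈ bs J (k + j), (cn k ξ b (1 / 2) ((n : ℝ) + 1 / 2) : ℝ) ≤
          ∑ b ∈ bs J (k + j), (vl k b (1 / 2 + κ) ((n : ℝ) + 1 / 2) + 2 ^ l) :=
        Finset.sum_le_sum fun b hb => (hcon b hb).le
      rw [Finset.sum_add_distrib, Finset.sum_const, card_bs, nsmul_eq_mul] at h8
      have h9 := hJ₁ J hJ1
      rw [div_mul_eq_mul_div, div_le_iff₀ (by positivity)] at h9
      have h10 : (((J + 1) ^ (k + j) : ℕ) : ℝ) * 2 ^ l ≤ (ε / 2) * E := by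
        push_cast
        have h11 : Z ^ ((j : ℝ) - δ) * Z ^ δ = Z ^ (j : ℝ) := by
          rw [← Real.rpow_add hZ0]; congr 1; ring
        have h12 : ((J : ℝ) + 1) ^ (k + j) * 2 ^ l ≤ ((J : ℝ) + 1) ^ (k + j) * (2 * (C * Z ^ ((j : ℝ) - δ))) :=
          mul_le_mul_of_nonneg_left hl2 (by positivity)
        refine h12.trans (le_trans ?_ (mul_le_mul_of_nonneg_left hElow (by positivity)))
        have h13 : (0:ℝ) < Z ^ ((j : ℝ) - δ) := by positivity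
        have h14 : ((J : ℝ) + 1) ^ (k + j) * (2 * (C * Z ^ ((j : ℝ) - δ))) * (2 * 3 ^ j) =
            (4 * C * 3 ^ j * ((J : ℝ) + 1) ^ (k + j)) * Z ^ ((j : ℝ) - δ) := by ring
        have h15 : (4 * C * 3 ^ j * ((J : ℝ) + 1) ^ (k + j)) * Z ^ ((j : ℝ) - δ) ≤
            (Z ^ δ * (ε * (V * ρ))) * Z ^ ((j : ℝ) - δ) := mul_le_mul_of_nonneg_right h9 h13.le
        have h16 : (Z ^ δ * (ε * (V * ρ))) * Z ^ ((j : ℝ) - δ) = ε * (V * ρ) * Z ^ (j : ℝ) := by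
          rw [← h11]; ring
        have h17 : ε / 2 * (V * ρ * (Z ^ (j : ℝ) / 3 ^ j)) * (2 * 3 ^ j) = ε * (V * ρ) * Z ^ (j : ℝ) := by
          field_simp
        have h18 : (0:ℝ) < 2 * 3 ^ j := by positivity
        rw [← mul_le_mul_iff_left₀ h18, h14, h17, ← h16]
        exact h15
      have h19 : (1 + ε) * E ≤ (1 + ε / 2) * E + ε / 2 * E := by linarith
      linarith
    obtain ⟨b, hb, h20⟩ := h7
    rw [Finset.mem_biUnion]
    refine ⟨b, hb, ?_⟩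
    rw [Finset.mem_filter]
    refine ⟨hn, ?_⟩
    rintro τ ⟨hτ1, hτ2⟩
    change vl k b (1 / 2 + κ / 2) τ + 2 ^ l ≤ cn k ξ b (1 / 2 + κ / 2) τ
    have h21 : vl k b (1 / 2 + κ / 2) τ ≤ vl k b (1 / 2 + κ) ((n : ℝ) + 1 / 2) := by
      unfold vl
      apply ENNReal.toReal_mono
      · refine ne_top_of_le_ne_top ?_ (measure_mono (t := Set.Icc (fun i => (lo (b i) : ℝ)) (fun i => (3:ℝ) ^ b i)) ?_)
        · exact (Bornology.IsBounded.measure_lt_top (Metric.isBounded_Icc _ _)).ne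
        · rintro u ⟨hu, _⟩
          exact ⟨fun i => (hu i).1, fun i => (hu i).2.le⟩
      · apply measure_mono
        rintro u ⟨hu1, hu2⟩
        refine ⟨hu1, ?_⟩
        rw [abs_le] at hu2 ⊢
        constructor <;> linarith [hu2.1, hu2.2]
    have h22 : (cn k ξ b (1 / 2) ((n : ℝ) + 1 / 2) : ℝ) ≤ cn k ξ b (1 / 2 + κ / 2) τ := by
      have : cn k ξ b (1 / 2) ((n : ℝ) + 1 / 2) ≤ cn k ξ b (1 / 2 + κ / 2) τ := by
        unfold cn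
        apply Finset.card_le_card
        intro x hx
        rw [Finset.mem_filter] at hx ⊢
        refine ⟨hx.1, ?_⟩
        have h23 := hx.2
        rw [abs_le] at h23 ⊢
        constructor <;> linarith [h23.1, h23.2]
      exact_mod_cast this
    linarith
  -- count
  have hvol : ∀ b ∈ bs J (k + j), (((RJ k ξ ε J).filter fun n : ℕ =>
      Set.Icc ((n:ℝ) + 1 / 2 - κ / 2) ((n:ℝ) + 1 / 2 + κ / 2) ⊆ Ex k ξ b (1 / 2 + κ / 2) l).card : ℝ) ≤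
      C / κ * Z ^ ((k : ℝ) - 2 ^ j / 2 + e + 2 ^ j * δ) := by
    intro b hb
    have h1 := card_le_vol (ω := κ / 2) (by linarith) (C := C * Z ^ ((k : ℝ) - 2 ^ j / 2 + e) * (Z ^ (j : ℝ) / 2 ^ l) ^ (2 ^ j))
      (by positivity) ((RJ k ξ ε J).filter fun n : ℕ =>
      Set.Icc ((n:ℝ) + 1 / 2 - κ / 2) ((n:ℝ) + 1 / 2 + κ / 2) ⊆ Ex k ξ b (1 / 2 + κ / 2) l)
      (fun n hn => (Finset.mem_filter.1 hn).2) (hbox J l b hb hl1)
    have h2 : Z ^ (j : ℝ) / 2 ^ l ≤ Z ^ δ := by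
      rw [div_le_iff₀ (by positivity)]
      have h3 : Z ^ (j : ℝ) = Z ^ δ * Z ^ ((j : ℝ) - δ) := by rw [← Real.rpow_add hZ0]; congr 1; ring
      rw [h3]
      apply mul_le_mul_of_nonneg_left _ (by positivity)
      have h4 : 0 < Z ^ ((j : ℝ) - δ) := by positivity
      nlinarith
    have h5 : (Z ^ (j : ℝ) / 2 ^ l) ^ (2 ^ j) ≤ Z ^ (2 ^ j * δ) := by
      refine (pow_le_pow_left₀ (by positivity) h2 _).trans (le_of_eq ?_)
      rw [← Real.rpow_natCast, ← Real.rpow_mul hZ0.le]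
      congr 1
      push_cast
      ring
    have h6 : C * Z ^ ((k : ℝ) - 2 ^ j / 2 + e) * (Z ^ (j : ℝ) / 2 ^ l) ^ (2 ^ j) ≤
        C * (Z ^ ((k : ℝ) - 2 ^ j / 2 + e) * Z ^ (2 ^ j * δ)) := by
      rw [mul_assoc]
      gcongr
    rw [← Real.rpow_add hZ0] at h6
    have h7 := h1.trans h6
    rw [div_mul_eq_mul_div, le_div_iff₀ hκ0]
    linarith
  have h1 : ((RJ k ξ ε J).card : ℝ) ≤ ∑ b ∈ bs J (k + j), (((RJ k ξ ε J).filter fun n : ℕ =>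
      Set.Icc ((n:ℝ) + 1 / 2 - κ / 2) ((n:ℝ) + 1 / 2 + κ / 2) ⊆ Ex k ξ b (1 / 2 + κ / 2) l).card : ℝ) := by
    exact_mod_cast (Finset.card_le_card hcov).trans Finset.card_biUnion_le
  refine h1.trans ((Finset.sum_le_sum hvol).trans ?_)
  rw [Finset.sum_const, card_bs, nsmul_eq_mul]
  push_cast
  have h2 := hJ₂ J hJ2
  rw [one_mul] at h2
  have h3 : Z ^ ((k : ℝ) - 2 ^ j / 2 + e + 2 ^ j * δ + e) = Z ^ ((k : ℝ) - 2 ^ j / 2 + e + 2 ^ j * δ) * Z ^ e :=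
    Real.rpow_add hZ0 _ _
  rw [h3]
  calc ((J : ℝ) + 1) ^ (k + j) * (C / κ * Z ^ ((k : ℝ) - 2 ^ j / 2 + e + 2 ^ j * δ))
      ≤ Z ^ e * (C / κ * Z ^ ((k : ℝ) - 2 ^ j / 2 + e + 2 ^ j * δ)) :=
        mul_le_mul_of_nonneg_right h2 (by positivity)
    _ = _ := by ring

end Pool.Agent.K7.H74.AF
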