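import Pool.Agent.K7.H74.AF.FinC

set_option autoImplicit false

/-! # Final step, part D: all scales -/

open MeasureTheory Finset Filter

namespace Pool.Agent.K7.H74.AF

theorem TT_mono {k j : ℕ} {δ δ₂ e η : ℝ} (h : δ₂ ≤ δ) {ξ : Fin (k + j) → ℝ} (hT : TT k j δ e η ξ) :
    TT k j δ₂ e η ξ := by
  obtain ⟨C, hC⟩ := hT
  refine ⟨C, fun b hb J l hJ hl => hC b hb J l hJ (le_trans ?_ hl)⟩
  have h1 : (1:ℝ) ≤ (3:ℝ) ^ J := one_le_pow₀ (by norm_num)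
  have h2 : ((3:ℝ) ^ J) ^ ((j : ℝ) - δ) ≤ ((3:ℝ) ^ J) ^ ((j : ℝ) - δ₂) :=
    Real.rpow_le_rpow_of_exponent_le h1 (by linarith)
  gcongr

/-- the number `n` has more than `(1 + ε)` times the expected number of representations -/
def Rich (k : ℕ) {s : ℕ} (ξ : Fin s → ℝ) (ε : ℝ) (n : ℕ) : Prop :=
  (1 + ε) * (WS.Vs k s * ((s : ℝ) / k) * (n : ℝ) ^ ((s : ℝ) / k - 1)) < (WS.rn k ξ n : ℝ)

open Classical in
/-- sum over the scales -/
theorem rich_sum {k s : ℕ} (hk : 1 ≤ k) (ξ : Fin s → ℝ) (ε : ℝ) (J₂ : ℕ) {N : ℕ} (hN : 1 ≤ N) :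
    ∃ JN : ℕ, ((3:ℝ) ^ JN) ^ k ≤ 3 ^ k * N ∧
      (((Finset.range (N + 1)).filter fun n => Rich k ξ ε n).card : ℝ) ≤
        ((3:ℝ) ^ J₂) ^ k + ∑ J ∈ Finset.Ioc J₂ JN, ((RJ k ξ ε J).card : ℝ) := by
  have hex : ∀ n : ℕ, ∃ J : ℕ, n < (3 ^ J) ^ k := by
    intro n
    refine ⟨n, ?_⟩
    have h1 : n < 3 ^ n := Nat.lt_pow_self (by norm_num)
    exact lt_of_lt_of_le h1 (Nat.le_self_pow (by omega) _)
  set JN := Nat.find (hex N) with hJN
  have hJN1 : N < (3 ^ JN) ^ k := Nat.find_spec (hex N)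
  have hJN0 : 1 ≤ JN := by
    by_contra h
    have h0 : JN = 0 := by omega
    rw [h0] at hJN1
    simp at hJN1
    omega
  refine ⟨JN, ?_, ?_⟩
  · have h1 : ¬ (N < (3 ^ (JN - 1)) ^ k) := Nat.find_min (hex N) (by omega)
    push Not at h1
    have h2 : ((3:ℝ) ^ (JN - 1)) ^ k ≤ N := by exact_mod_cast h1
    obtain ⟨J', hJ'⟩ : ∃ J', JN = J' + 1 := ⟨JN - 1, by omega⟩
    rw [hJ'] at h2 ⊢
    rw [Nat.add_sub_cancel] at h2
    rw [pow_succ, mul_pow, mul_comm]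
    gcongr
  · have hsub : ((Finset.range (N + 1)).filter fun n => Rich k ξ ε n) ⊆
        Finset.range ((3 ^ J₂) ^ k) ∪ (Finset.Ioc J₂ JN).biUnion fun J => RJ k ξ ε J := by
      intro n hn
      rw [Finset.mem_filter, Finset.mem_range] at hn
      rw [Finset.mem_union]
      by_cases h : n < (3 ^ J₂) ^ k
      · left; exact Finset.mem_range.2 h
      · right
        push Not at h
        set J := Nat.find (hex n) with hJ
        have hJ1 : n < (3 ^ J) ^ k := Nat.find_spec (hex n)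
        have hJ2 : J₂ < J := by
          by_contra h1
          push Not at h1
          have h2 : (3 ^ J) ^ k ≤ (3 ^ J₂) ^ k :=
            Nat.pow_le_pow_left (Nat.pow_le_pow_right (by norm_num) h1) k
          omega
        have hJ3 : J ≤ JN := Nat.find_min' (hex n) (by omega)
        have hJ4 : ¬ (n < (3 ^ (J - 1)) ^ k) := Nat.find_min (hex n) (by omega)
        rw [Finset.mem_biUnion]
        refine ⟨J, Finset.mem_Ioc.2 ⟨hJ2, hJ3⟩, ?_⟩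
        unfold RJ
        rw [Finset.mem_filter, Finset.mem_range]
        exact ⟨hJ1, by omega, hn.2⟩
    have h1 := (Finset.card_le_card hsub).trans (Finset.card_union_le _ _)
    have h2 := Finset.card_biUnion_le (s := Finset.Ioc J₂ JN) (t := fun J => RJ k ξ ε J)
    rw [Finset.card_range] at h1
    have h3 : ((Finset.range (N + 1)).filter fun n => Rich k ξ ε n).card ≤ (3 ^ J₂) ^ k + ∑ J ∈ Finset.Ioc J₂ JN, (RJ k ξ ε J).card := by
      omega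
    exact_mod_cast h3

theorem rich_count {k j : ℕ} (hk : 2 ≤ k) {ξ : Fin (k + j) → ℝ} {ε δ : ℝ} (hδ : 0 < δ)
    (H : ∀ e : ℝ, 0 < e → ∃ C : ℝ, 0 < C ∧ ∃ J₀ : ℕ, ∀ J : ℕ, J₀ ≤ J →
      ((RJ k ξ ε J).card : ℝ) ≤ C * ((3 : ℝ) ^ J) ^ ((k : ℝ) - 2 ^ j / 2 + e)) :
    ∃ C : ℝ, 0 ≤ C ∧ ∀ N : ℕ, 1 ≤ N →
      (Nat.card {n : ℕ // n ≤ N ∧ Rich k ξ ε n} : ℝ) ≤ C * (N : ℝ) ^ max 0 (1 - 2 ^ j / 2 / (k : ℝ) + δ) := by
  classical
  have hk0 : (0 : ℝ) < k := by exact_mod_cast (by omega : 0 < k)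
  have hcard : ∀ N : ℕ, Nat.card {n : ℕ // n ≤ N ∧ Rich k ξ ε n} =
      ((Finset.range (N + 1)).filter fun n => Rich k ξ ε n).card := by
    intro N
    apply Nat.subtype_card
    intro n
    rw [Finset.mem_filter, Finset.mem_range, Nat.lt_succ_iff]
  rcases lt_or_ge ((k : ℝ) - 2 ^ j / 2) 0 with hθ | hθ
  · -- no exceptions from some point on
    set e : ℝ := -((k : ℝ) - 2 ^ j / 2) / 2 with he
    have he0 : 0 < e := by rw [he]; linarith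
    obtain ⟨C, hC, J₀, hJ₀⟩ := H e he0
    have h1 : ∃ J₁ : ℕ, ∀ J : ℕ, J₁ ≤ J → 2 * C * ((J : ℝ) + 1) ^ 0 ≤ ((3 : ℝ) ^ J) ^ e := poly_small 0 he0
    obtain ⟨J₁, hJ₁⟩ := h1
    refine ⟨((3:ℝ) ^ max J₀ J₁) ^ k, by positivity, fun N hN => ?_⟩
    obtain ⟨JN, _, h2⟩ := rich_sum (k := k) (by omega) ξ ε (max J₀ J₁) hN
    rw [hcard]
    have h3 : ∀ J ∈ Finset.Ioc (max J₀ J₁) JN, ((RJ k ξ ε J).card : ℝ) = 0 := by
      intro J hJ
      rw [Finset.mem_Ioc] at hJ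
      have h4 := hJ₀ J ((le_max_left _ _).trans hJ.1.le)
      have h5 := hJ₁ J ((le_max_right _ _).trans hJ.1.le)
      rw [pow_zero, mul_one] at h5
      have h6 : (k : ℝ) - 2 ^ j / 2 + e = -e := by rw [he]; ring
      have h7 : (0:ℝ) < ((3 : ℝ) ^ J) ^ e := by positivity
      rw [h6, Real.rpow_neg (by positivity)] at h4
      have h8 : C * (((3 : ℝ) ^ J) ^ e)⁻¹ < 1 := by
        rw [← div_eq_mul_inv, div_lt_one h7]
        linarith
      have h9 : (RJ k ξ ε J).card < 1 := by exact_mod_cast lt_of_le_of_lt h4 h8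
      have h10 : (RJ k ξ ε J).card = 0 := by omega
      rw [h10, Nat.cast_zero]
    rw [Finset.sum_eq_zero h3, add_zero] at h2
    have hN1 : (1 : ℝ) ≤ N := by exact_mod_cast hN
    have h11 : (1 : ℝ) ≤ (N : ℝ) ^ max 0 (1 - 2 ^ j / 2 / (k : ℝ) + δ) := Real.one_le_rpow hN1 (le_max_left _ _)
    have h12 : (0:ℝ) ≤ ((3:ℝ) ^ max J₀ J₁) ^ k := by positivity
    nlinarith
  · set e : ℝ := k * δ / 2 with he
    have he0 : 0 < e := by positivity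
    obtain ⟨C, hC, J₀, hJ₀⟩ := H e he0
    obtain ⟨J₁, hJ₁⟩ := poly_small (A := 1) 1 he0
    set D : ℝ := (k : ℝ) - 2 ^ j / 2 + e with hD
    have hD0 : 0 < D := by rw [hD]; linarith
    set E : ℝ := 1 - 2 ^ j / 2 / (k : ℝ) + δ with hE
    have hDE : D + e = k * E := by
      rw [hD, hE, he]
      field_simp
      ring
    have hE0 : 0 < E := by
      by_contra h
      push Not at h
      have : k * E ≤ 0 := mul_nonpos_of_nonneg_of_nonpos hk0.le h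
      linarith
    set K : ℕ := max J₀ J₁ with hK
    refine ⟨((3:ℝ) ^ K) ^ k + C * ((3:ℝ) ^ k) ^ E + C * ((3:ℝ) ^ K) ^ e * ((3:ℝ) ^ k) ^ E, by positivity, fun N hN => ?_⟩
    obtain ⟨JN, h0, h2⟩ := rich_sum (k := k) (by omega) ξ ε K hN
    rw [hcard]
    have hN1 : (1 : ℝ) ≤ N := by exact_mod_cast hN
    have hmax : max 0 E = E := max_eq_right hE0.le
    rw [hmax]
    have hNE : 1 ≤ (N : ℝ) ^ E := Real.one_le_rpow hN1 hE0.le
    set Z : ℝ := (3:ℝ) ^ JN with hZ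
    have hZ1 : 1 ≤ Z := one_le_pow₀ (by norm_num)
    have hZE : Z ^ (k * E) ≤ ((3:ℝ) ^ k) ^ E * (N : ℝ) ^ E := by
      rw [Real.rpow_mul (by positivity), Real.rpow_natCast, ← Real.mul_rpow (by positivity) (by positivity)]
      exact Real.rpow_le_rpow (by positivity) h0 hE0.le
    have h3 : ∑ J ∈ Finset.Ioc K JN, ((RJ k ξ ε J).card : ℝ) ≤ C * (((3:ℝ) ^ k) ^ E * (N : ℝ) ^ E) := by
      rcases le_or_gt JN K with h4 | h4
      · rw [Finset.Ioc_eq_empty (by omega), Finset.sum_empty]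
        positivity
      · have h5 : ∀ J ∈ Finset.Ioc K JN, ((RJ k ξ ε J).card : ℝ) ≤ C * Z ^ D := by
          intro J hJ
          rw [Finset.mem_Ioc] at hJ
          refine (hJ₀ J ((le_max_left _ _).trans hJ.1.le)).trans ?_
          have h6 : ((3:ℝ) ^ J) ^ D ≤ Z ^ D :=
            Real.rpow_le_rpow (by positivity) (pow_le_pow_right₀ (by norm_num) hJ.2) hD0.le
          gcongr
        refine (Finset.sum_le_sum h5).trans ?_
        rw [Finset.sum_const, Nat.card_Ioc, nsmul_eq_mul]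
        have h7 := hJ₁ JN ((le_max_right _ _).trans h4.le)
        rw [one_mul, pow_one] at h7
        have h8 : ((JN - K : ℕ) : ℝ) ≤ (JN : ℝ) + 1 := by
          have : JN - K ≤ JN + 1 := by omega
          exact_mod_cast this
        calc ((JN - K : ℕ) : ℝ) * (C * Z ^ D) ≤ Z ^ e * (C * Z ^ D) :=
              mul_le_mul_of_nonneg_right (h8.trans h7) (by positivity)
          _ = C * Z ^ (k * E) := by
              have h11 : Z ^ (D + e) = Z ^ D * Z ^ e := Real.rpow_add (by positivity) D e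
              rw [← hDE, h11]; ring
          _ ≤ _ := mul_le_mul_of_nonneg_left hZE hC.le
    have h9 : (0:ℝ) ≤ ((3:ℝ) ^ K) ^ k := by positivity
    have h10 : (0:ℝ) ≤ C * ((3:ℝ) ^ K) ^ e * ((3:ℝ) ^ k) ^ E * (N : ℝ) ^ E := by positivity
    calc _ ≤ ((3:ℝ) ^ K) ^ k + C * (((3:ℝ) ^ k) ^ E * (N : ℝ) ^ E) := h2.trans (by linarith)
      _ ≤ ((3:ℝ) ^ K) ^ k * (N : ℝ) ^ E + C * (((3:ℝ) ^ k) ^ E * (N : ℝ) ^ E) +
          C * ((3:ℝ) ^ K) ^ e * ((3:ℝ) ^ k) ^ E * (N : ℝ) ^ E := by nlinarith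
      _ = _ := by ring

/-- **The upper bound, for almost all shifts.** -/
theorem rich_ae {k j : ℕ} (hk : 2 ≤ k) (hj : 1 ≤ j) (hT : StT) (hAe : StAe) :
    ∀ᵐ ξ ∂(cube (k + j)), ∀ ε : ℝ, 0 < ε → ∀ δ : ℝ, 0 < δ → ∃ C : ℝ, 0 ≤ C ∧ ∀ N : ℕ, 1 ≤ N →
      (Nat.card {n : ℕ // n ≤ N ∧ Rich k ξ ε n} : ℝ) ≤ C * (N : ℝ) ^ max 0 (1 - 2 ^ j / 2 / (k : ℝ) + δ) := by
  have hk0 : (0 : ℝ) < k := by exact_mod_cast (by omega : 0 < k)
  have hV : 0 < WS.Vs k (k + j) := by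
    have h1 := WS.Vs_const (k := k) (s := k + j) (by omega) (by omega)
    have hG1 : 0 < Real.Gamma (1 + 1 / (k : ℝ)) := Real.Gamma_pos_of_pos (by positivity)
    have hG2 : 0 < Real.Gamma (((k + j : ℕ) : ℝ) / k) := Real.Gamma_pos_of_pos (by positivity)
    have h2 : 0 < WS.Vs k (k + j) * (((k + j : ℕ) : ℝ) / k) := by
      rw [h1]; positivity
    have h3 : 0 < ((k + j : ℕ) : ℝ) / k := by positivity
    exact (mul_pos_iff_of_pos_right h3).1 h2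
  have hρ : 1 ≤ ((k + j : ℕ) : ℝ) / k := by
    rw [le_div_iff₀ hk0]
    push_cast
    have : (0:ℝ) ≤ j := Nat.cast_nonneg j
    linarith
  -- the parameters
  have hpar : ∀ m : ℕ, ∃ κ : ℝ, 0 < κ ∧ κ ≤ 1 / 8 ∧ ∃ n₀ : ℕ, 2 ≤ n₀ ∧ ∀ n : ℕ, n₀ ≤ n →
      WS.Vs k (k + j) * (((n : ℝ) + 1 / 2 + (1 / 2 + κ) + κ) ^ (((k + j : ℕ) : ℝ) / k) -
        ((n : ℝ) + 1 / 2 - (1 / 2 + κ)) ^ (((k + j : ℕ) : ℝ) / k)) ≤
        (1 + (1 / ((m : ℝ) + 1)) / 2) * (WS.Vs k (k + j) * (((k + j : ℕ) : ℝ) / k) *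
          (n : ℝ) ^ (((k + j : ℕ) : ℝ) / k - 1)) :=
    fun m => exp_bound hρ hV (by positivity)
  choose κ hκ0 hκ1 n₀ hn₀ hκ using hpar
  have hδT : ∀ m : ℕ, ∃ δ : ℝ, 0 < δ ∧ ∀ η : ℝ, 0 < η → η ≤ 1 → ∀ᵐ ξ ∂(cube (k + j)), TT k j δ (1 / ((m : ℝ) + 1)) η ξ :=
    fun m => hT k j _ hk hj (by positivity)
  choose dT hdT0 hdT using hδT
  have hall : ∀ᵐ ξ ∂(cube (k + j)), ∀ m m' : ℕ, ∀ σ : Equiv.Perm (Fin (k + j)),
      TT k j (dT m') (1 / ((m' : ℝ) + 1)) (1 / 2 + κ m / 2) (ξ ∘ σ) := by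
    rw [ae_all_iff]
    intro m
    rw [ae_all_iff]
    intro m'
    have := hκ0 m
    have := hκ1 m
    exact hAe.2.1 (k + j) _ (hdT m' _ (by linarith) (by linarith))
  filter_upwards [hall, hAe.2.2 (k + j)] with ξ h1 h2 ε hε δ hδ
  obtain ⟨m, hm⟩ := exists_nat_one_div_lt hε
  have hcount := rich_count (k := k) (j := j) hk (ξ := ξ) (ε := 1 / ((m : ℝ) + 1)) hδ (fun e he => by
    have hpos : 0 < e / (2 + 2 ^ j) := by positivity
    obtain ⟨m', hm'⟩ := exists_nat_one_div_lt hpos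
    set e' : ℝ := 1 / ((m' : ℝ) + 1) with he'
    have he'0 : 0 < e' := by positivity
    set δ₂ : ℝ := min (dT m') (min e' 1) with hδ₂
    have hδ₂0 : 0 < δ₂ := lt_min (hdT0 m') (lt_min he'0 one_pos)
    have hδ₂1 : δ₂ ≤ 1 := (min_le_right _ _).trans (min_le_right _ _)
    have hδ₂e : δ₂ ≤ e' := (min_le_right _ _).trans (min_le_left _ _)
    obtain ⟨C, hC, J₀, hJ₀⟩ := rich_scale hk hj (ε := 1 / ((m : ℝ) + 1)) (δ := δ₂) (e := e') (by positivity) hδ₂0 hδ₂1 he'0 hV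
      (hκ0 m) (hκ1 m) (hn₀ m) (hκ m) (fun i => (h2 i).1.le) (fun σ => TT_mono (min_le_left _ _) (h1 m m' σ))
    refine ⟨C, hC, J₀, fun J hJ => (hJ₀ J hJ).trans ?_⟩
    have h3 : (1:ℝ) ≤ (3:ℝ) ^ J := one_le_pow₀ (by norm_num)
    have h4 : (k : ℝ) - 2 ^ j / 2 + e' + 2 ^ j * δ₂ + e' ≤ (k : ℝ) - 2 ^ j / 2 + e := by
      have h5 : 2 ^ j * δ₂ ≤ 2 ^ j * e' := mul_le_mul_of_nonneg_left hδ₂e (by positivity)
      rw [lt_div_iff₀ (by positivity)] at hm'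
      nlinarith
    have h6 := Real.rpow_le_rpow_of_exponent_le h3 h4
    exact mul_le_mul_of_nonneg_left h6 hC.le)
  obtain ⟨C, hC, hCN⟩ := hcount
  refine ⟨C, hC, fun N hN => le_trans ?_ (hCN N hN)⟩
  have h3 : Nat.card {n : ℕ // n ≤ N ∧ Rich k ξ ε n} ≤ Nat.card {n : ℕ // n ≤ N ∧ Rich k ξ (1 / ((m : ℝ) + 1)) n} := by
    refine Nat.card_mono ((Set.finite_Iic N).subset fun n hn => hn.1) ?_
    rintro n ⟨h4, h5⟩
    refine ⟨h4, lt_of_le_of_lt ?_ h5⟩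
    have h6 : 0 ≤ WS.Vs k (k + j) * (((k + j : ℕ) : ℝ) / k) * (n : ℝ) ^ (((k + j : ℕ) : ℝ) / k - 1) := by
      have : 0 ≤ ((k + j : ℕ) : ℝ) / k := by positivity
      positivity
    have h7 : 1 + 1 / ((m : ℝ) + 1) ≤ 1 + ε := by linarith
    exact mul_le_mul_of_nonneg_right h7 h6
  exact_mod_cast h3

end Pool.Agent.K7.H74.AF
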